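import Mathlib
import Pool.Agent.SYP.Final

/-!
# Projections on a Banach space with a symmetric basis (MP_c37a36_an)

`X` is a real or complex Banach space with a symmetric basis `b`, `P` a bounded projection of `X`.
Suppose that `P` is amplifiable (`I ⊗ P` is bounded on the finite vectors of `X(ℕ × ℕ)`), or
self-similar (the basis splits into two infinite parts on which, after renumbering, `P` acts as two
copies of `P`), or that the rows and the columns of its matrix have bounded `ℓ1` norms (which
implies that `P` is amplifiable). Then `X ≃ X × P X`, `X ≃ X × ker P`, and `X ≃ P X` or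
`X ≃ ker P`.
-/

set_option autoImplicit false

namespace Pool.Agent.Results.MP_c37a36_an.AmplifiableProjections

open Finset Pool.Agent.SYP

theorem result (𝕜 : Type) [RCLike 𝕜] (X : Type) [NormedAddCommGroup X] [NormedSpace 𝕜 X]
    [CompleteSpace X] (b : SchauderBasis 𝕜 X) (hb : IsSymmetric b)
    (P : X →L[𝕜] X) (hP : P ∘L P = P)
    (hA : Amplifiable b P ∨ SelfSimilar b P ∨
      ∃ M : ℝ, (∀ i N, ∑ j ∈ range N, ‖b.coord i (P (b j))‖ ≤ M) ∧
        ∀ j N, ∑ i ∈ range N, ‖b.coord i (P (b j))‖ ≤ M) :
    Nonempty (X ≃L[𝕜] X × LinearMap.range P.toLinearMap) ∧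
    Nonempty (X ≃L[𝕜] X × LinearMap.ker P.toLinearMap) ∧
    (Nonempty (X ≃L[𝕜] LinearMap.range P.toLinearMap) ∨
      Nonempty (X ≃L[𝕜] LinearMap.ker P.toLinearMap)) := by
  refine main b hb P hP ?_
  rcases hA with h | h | ⟨M, hr, hc⟩
  · exact Or.inl h
  · exact Or.inr h
  · exact Or.inl (amp_of_l1 b hb P M hr hc)

end Pool.Agent.Results.MP_c37a36_an.AmplifiableProjections
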